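import Mathlib
import Pool.Agent.Helper70.PolyConstruct

/-!
# Degree of total separability for simple polytopes

For every `d ≥ 2`, at most `n` nodes of the graph of a simple `d`-polytope are totally separated
by `n ≥ 1` nodes, and the bound `n` is attained for every `n ≥ (d - 2) 2 ^ (d - 1) + 2` and for
every `n` of the form `2^(d-1) + ∑_{j < d-1} c_j (2^(d-1) - 2^j)`.
-/

namespace Pool.Agent.Results.MP_3f7fac_co.LargeN

open Pool.Agent.Helper70.Poly Finset

/-- Repeated cutting of vertices. -/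
lemma exists_cut_iter {d : ℕ} (hd : 1 ≤ d) (D : SimpleData d) (c : ℕ) :
    ∃ D' : SimpleData d, Nat.card D'.W + 2 * c = Nat.card D.W + c * 2 ^ d := by
  induction c with
  | zero => exact ⟨D, by simp⟩
  | succ c ih =>
    obtain ⟨D', hD'⟩ := ih
    obtain ⟨w⟩ := D'.ne
    obtain ⟨δ, hδ, hδw⟩ := D'.exists_delta w
    refine ⟨D'.cut w hδ hδw hd, ?_⟩
    have := D'.card_cut w hδ hδw hd
    rw [Nat.add_mul, Nat.one_mul]
    omega

/-- `Good d n`: there is a certificate with `2 n` vertices. -/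
def Good (d n : ℕ) : Prop := ∃ D : SimpleData d, Nat.card D.W = 2 * n

lemma Good.cut {d n : ℕ} (h : Good (d + 1) n) (c : ℕ) : Good (d + 1) (n + c * (2 ^ d - 1)) := by
  obtain ⟨D, hD⟩ := h
  obtain ⟨D', hD'⟩ := exists_cut_iter (by omega) D c
  refine ⟨D', ?_⟩
  rw [hD, pow_succ] at hD'
  obtain ⟨q, hq⟩ : ∃ q, 2 ^ d = q + 1 := ⟨2 ^ d - 1, by have := Nat.one_le_two_pow (n := d); omega⟩
  rw [hq] at hD' ⊢
  rw [Nat.add_sub_cancel]
  have h1 : c * ((q + 1) * 2) = 2 * (c * q) + 2 * c := by ring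
  rw [h1] at hD'
  omega

lemma Good.prism {d n : ℕ} (h : Good d n) : Good (d + 1) (2 * n) := by
  obtain ⟨D, hD⟩ := h
  exact ⟨D.prism, by rw [D.card_prism, hD]⟩

/-- A quadrilateral. -/
lemma good_two : Good 2 2 := by
  refine ⟨SimpleData.point.prism.prism, ?_⟩
  rw [SimpleData.card_prism, SimpleData.card_prism]
  have h0 : Nat.card SimpleData.point.W = 1 := by
    change Nat.card Unit = 1
    simp
  rw [h0]

/-- The general construction: repeated prisms and cuts. -/
lemma good_sum (m : ℕ) : ∀ c : ℕ → ℕ,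
    Good (m + 2) (2 ^ (m + 1) + ∑ j ∈ range (m + 1), c j * (2 ^ (m + 1) - 2 ^ j)) := by
  induction m with
  | zero =>
    intro c
    have h := good_two.cut (d := 1) (c 0)
    simpa using h
  | succ m ih =>
    intro c
    have h := ((ih fun j => c (j + 1)).prism).cut (c 0)
    have e : 2 * (2 ^ (m + 1) + ∑ j ∈ range (m + 1), c (j + 1) * (2 ^ (m + 1) - 2 ^ j)) +
        c 0 * (2 ^ (m + 2) - 1) =
        2 ^ (m + 1 + 1) + ∑ j ∈ range (m + 1 + 1), c j * (2 ^ (m + 1 + 1) - 2 ^ j) := by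
      rw [sum_range_succ' _ (m + 1), mul_add, mul_sum, pow_zero, ← add_assoc]
      congr 2
      · rw [pow_succ 2 (m + 1)]
        ring
      · refine sum_congr rfl fun j _ => ?_
        rw [mul_left_comm, Nat.mul_sub, ← pow_succ', ← pow_succ']
    rw [e] at h
    exact h

/-- All large `n` are reached. -/
lemma good_large (m : ℕ) : ∀ n, m * 2 ^ (m + 1) + 2 ≤ n → Good (m + 2) n := by
  induction m with
  | zero =>
    intro n hn
    have h := good_two.cut (d := 1) (n - 2)
    have e : 2 + (n - 2) * (2 ^ 1 - 1) = n := by omega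
    rwa [e] at h
  | succ m ih =>
    intro n hn
    obtain ⟨q, hq⟩ : ∃ q, 2 ^ (m + 1) = q + 1 :=
      ⟨2 ^ (m + 1) - 1, by have := Nat.one_le_two_pow (n := m + 1); omega⟩
    have h2 : 2 ^ (m + 2) = 2 * (q + 1) := by rw [pow_succ, hq]; ring
    have h3 : (m + 1) * 2 ^ (m + 1 + 1) = 2 * (m * (q + 1)) + 2 * (q + 1) := by
      rw [show m + 1 + 1 = m + 2 from rfl, h2]
      ring
    rw [h3] at hn
    rcases Nat.even_or_odd' n with ⟨k, rfl | rfl⟩
    · refine (ih k ?_).prism
      rw [hq]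
      omega
    · have hk : Good (m + 2) (k - q) := by
        refine ih _ ?_
        rw [hq]
        omega
      have h := (hk.prism).cut 1
      rw [h2] at h
      have e : 2 * (k - q) + 1 * (2 * (q + 1) - 1) = 2 * k + 1 := by omega
      rwa [e] at h

/-- **Main theorem.**  Let `d ≥ 2`.  For every `n ≥ 1` at most `n` nodes of the graph of a simple
`d`-polytope are totally separated by `n` nodes; and `s(n, 𝒮^d) = n` for every
`n ≥ (d - 2) 2^(d-1) + 2` and for every `n = 2^(d-1) + ∑_{j < d-1} c_j (2^(d-1) - 2^j)`. -/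
theorem result (d : ℕ) (hd : 2 ≤ d) :
    (∀ n, 1 ≤ n → ∀ k ∈ sepCards n d, k ≤ n) ∧
      ∀ n, ((d - 2) * 2 ^ (d - 1) + 2 ≤ n ∨
          ∃ c : ℕ → ℕ, n = 2 ^ (d - 1) + ∑ j ∈ range (d - 1), c j * (2 ^ (d - 1) - 2 ^ j)) →
        IsGreatest (sepCards n d) n := by
  refine ⟨fun n hn k hk => sepCards_le (by omega) hn hk, fun n hn => ?_⟩
  obtain ⟨m, rfl⟩ := Nat.exists_eq_add_of_le' hd
  have e1 : m + 2 - 2 = m := by omega
  have e2 : m + 2 - 1 = m + 1 := by omega
  rw [e1, e2] at hn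
  have hn1 : 1 ≤ n := by
    rcases hn with h | ⟨c, rfl⟩
    · omega
    · have h1 : 1 ≤ 2 ^ (m + 1) := Nat.one_le_two_pow
      omega
  have hG : Good (m + 2) n := by
    rcases hn with h | ⟨c, rfl⟩
    · exact good_large m n h
    · exact good_sum m c
  obtain ⟨D, hD⟩ := hG
  exact ⟨D.mem_sepCards (by omega) hD, fun k hk => sepCards_le (by omega) hn1 hk⟩

end Pool.Agent.Results.MP_3f7fac_co.LargeN
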