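import Mathlib
import Pool.Agent.Helper26.PolySep.Geo
import Pool.Agent.Helper26.PolySep.Lower

/-!
# Degree of total separability for simple polytopes: few separating nodes

`s(n, 𝒮^d) = k` for `d + C(k-1, 2) ≤ n < d + C(k, 2)`, as long as `n + 2 k ≤ 2 d + 2` or
`2 n + 2 ≤ 3 d`.
-/

namespace Pool.Agent.Results.MP_3f7fac_co.SmallN

open Pool.Agent.Helper70.Poly

/-- **Main theorem.**  Let `k ≥ 2` and `d + C(k-1, 2) ≤ n < d + C(k, 2)`.  If `n + 2 k ≤ 2 d + 2`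
or `2 n + 2 ≤ 3 d`, then `s(n, 𝒮^d) = k`. -/
theorem result (d k n : ℕ) (hk : 2 ≤ k) (h1 : d + (k - 1).choose 2 ≤ n)
    (h2 : n < d + k.choose 2) (h3 : n + 2 * k ≤ 2 * d + 2 ∨ 2 * n + 2 ≤ 3 * d) :
    IsGreatest (sepCards n d) k := by
  have hd : 0 < d := by omega
  have hch : k - 2 ≤ (k - 1).choose 2 := by
    obtain ⟨m, rfl⟩ : ∃ m, k = m + 2 := ⟨k - 2, by omega⟩
    have e1 : m + 2 - 1 = m + 1 := by omega
    rw [e1, Nat.choose_succ_succ' m 1]
    simp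
  have hkd : k ≤ d := by omega
  refine ⟨Pool.Agent.Helper26.PolySep.mem_sepCards hk hkd h1 h2, fun m hm => ?_⟩
  have := Pool.Agent.Helper26.PolySep.sepCards_lt (K := k + 1) hd (by omega)
    (by rw [Nat.add_sub_cancel]; exact h2) (by rw [Nat.add_sub_cancel]; exact h3) hm
  omega

end Pool.Agent.Results.MP_3f7fac_co.SmallN
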