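import Mathlib
import Pool.Agent.Results.MP_3f7fac_co.LargeN
import Pool.Agent.Helper82.TotSep.Final

/-!
# Degree of total separability for simple polytopes: equality below `2 ^ d`

For `2 ≤ n < 2 ^ d` the general bound `s(n, 𝒮^d) ≤ n` is attained exactly when
`n = 2 ^ d - 2 ^ j` for some `j < d`.
-/

namespace Pool.Agent.Results.MP_3f7fac_co.BelowTwoPow

open Pool.Agent.Helper70.Poly

/-- **Main theorem.**  Let `d ≥ 2` and `2 ≤ n < 2 ^ d`.  Then `s(n, 𝒮^d) = n` if and only if
`n = 2 ^ d - 2 ^ j` for some `0 ≤ j < d`. -/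
theorem result (d n : ℕ) (hd : 2 ≤ d) (hn : 2 ≤ n) (hlt : n < 2 ^ d) :
    IsGreatest (sepCards n d) n ↔ ∃ j < d, n = 2 ^ d - 2 ^ j := by
  constructor
  · intro h
    obtain ⟨j, hj, h⟩ := Pool.Agent.Helper82.TotSep.eq_two_pow_sub hn hlt h.1
    exact ⟨j, hj, by omega⟩
  · rintro ⟨j, hj, rfl⟩
    refine (Pool.Agent.Results.MP_3f7fac_co.LargeN.result d hd).2 _ (Or.inr ?_)
    have h1 : 2 ^ d = 2 * 2 ^ (d - 1) := by
      rw [← pow_succ']
      congr 1
      omega
    rcases Nat.lt_or_ge j (d - 1) with hj' | hj'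
    · refine ⟨Pi.single j 1, ?_⟩
      rw [Finset.sum_eq_single j]
      · rw [Pi.single_eq_same]
        have h2 : 2 ^ j ≤ 2 ^ (d - 1) := Nat.pow_le_pow_right (by omega) hj'.le
        omega
      · intro i _ hi
        rw [Pi.single_eq_of_ne hi]
        omega
      · intro h
        exact absurd (Finset.mem_range.mpr hj') h
    · have h2 : j = d - 1 := by omega
      refine ⟨0, ?_⟩
      rw [h2, Finset.sum_eq_zero]
      · omega
      · intro i _
        simp

end Pool.Agent.Results.MP_3f7fac_co.BelowTwoPow
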