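import Mathlib
import Pool.Agent.Helper13.TSE.Fin
import Pool.Agent.Helper13.TSE.Mid

/-!
# Degree of total separability for simple polytopes: the exact order of magnitude

For `d < n < 2 d - 1` the maximum `s(n, 𝒮^d)` has the order of magnitude `√(n - d)`.  For
`d ≥ 2`, `n ≥ 2 d - 1` and `x = min (1, log n / d)` it has the order of magnitude
`n (1 / √d + x / (1 + log (1 / x)))`.  All constants are absolute.
-/

namespace Pool.Agent.Results.MP_3f7fac_co.ExactOrder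

open Pool.Agent.Helper70.Poly

/-- **Main theorem.**  For `d < n < 2 d - 1` the maximum `s = s(n, 𝒮^d)` exists and
`√(2 (n - d)) ≤ s ≤ 400 √(n - d)`.  There is an absolute constant `C` such that for all `d ≥ 2`,
`n ≥ 2 d - 1`, with `x = min (1, log n / d)`, the maximum `s = s(n, 𝒮^d)` exists,
`n / (4 √d) ≤ s`, `n x / (80 (1 + log (1 / x))) ≤ s` and
`s ≤ C n (1 / √d + x / (1 + log (1 / x)))`. -/
theorem result :
    (∀ d n : ℕ, d < n → n < 2 * d - 1 →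
      ∃ s, IsGreatest (sepCards n d) s ∧ √(2 * ((n : ℝ) - d)) ≤ s ∧
        (s : ℝ) ≤ 400 * √((n : ℝ) - d)) ∧
    ∃ C : ℝ, 0 < C ∧ ∀ d n : ℕ, 2 ≤ d → 2 * d - 1 ≤ n → ∀ x : ℝ,
      x = min 1 (Real.log n / d) →
      ∃ s, IsGreatest (sepCards n d) s ∧ (n : ℝ) / (4 * √(d : ℝ)) ≤ s ∧
        (n : ℝ) * x / (80 * (1 + Real.log (1 / x))) ≤ s ∧
        (s : ℝ) ≤ C * n * (1 / √(d : ℝ) + x / (1 + Real.log (1 / x))) := by
  refine ⟨Pool.Agent.Helper13.TSE.mid_range, ?_⟩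
  obtain ⟨C, hC, h⟩ := Pool.Agent.Helper13.TSE.exact_order
  refine ⟨C, hC, fun d n hd hn x hx => ?_⟩
  obtain ⟨s, h1, h2, h3, _, h5⟩ := h d n hd hn x hx
  exact ⟨s, h1, h2, h3, h5⟩

end Pool.Agent.Results.MP_3f7fac_co.ExactOrder
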